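import Mathlib

set_option autoImplicit false

namespace Pool.Agent.H16.Rb

open Finset

/-- The nested potential of a usage vector. -/
noncomputable def pot : ℕ → (ℕ → ℕ) → ℝ
  | 0, _ => 1
  | J + 1, u => ((16 / 5) ^ (u 0) + 4 * Real.sqrt (pot J fun i => u (i + 1))) / 5

/-- `gam J h = ∑_{j < J} 2^j h_j`. -/
def gam : ℕ → (ℕ → ℕ) → ℕ
  | 0, _ => 0
  | J + 1, h => h 0 + 2 * gam J fun i => h (i + 1)

theorem pot_pos : ∀ (J : ℕ) (u : ℕ → ℕ), 0 < pot J u
  | 0, _ => by simp [pot]
  | J + 1, u => by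
    have := Real.sqrt_nonneg (pot J fun i => u (i + 1))
    simp only [pot]
    positivity

theorem pot_zero : ∀ J : ℕ, pot J (fun _ => 0) = 1
  | 0 => by simp [pot]
  | J + 1 => by simp [pot, pot_zero J]; norm_num

theorem step : ∀ (J : ℕ) (u h : ℕ → ℕ), 0 < gam J h →
    ∃ i < J, 0 < h i ∧
      pot J (Function.update u i (u i + 1)) ≤ pot J u * (1 + 11 / 5 * ((h i : ℝ) / gam J h)) := by
  intro J
  induction J with
  | zero => intro u h hg; simp [gam] at hg
  | succ J ih =>
    intro u h hg
    set u' : ℕ → ℕ := fun i => u (i + 1) with hu'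
    set h' : ℕ → ℕ := fun i => h (i + 1) with hh'
    set P := pot (J + 1) u with hP
    have hPpos : 0 < P := pot_pos _ _
    set s := Real.sqrt (pot J u') with hs
    have hs0 : 0 < s := Real.sqrt_pos.2 (pot_pos _ _)
    obtain ⟨o, ho⟩ : ∃ o : ℝ, o = (16 / 5) ^ (u 0) / 5 := ⟨_, rfl⟩
    have hopos : 0 < o := by rw [ho]; positivity
    have hPeq : P = o + 4 * s / 5 := by
      rw [hP, ho]
      simp only [pot]
      rw [← hu', ← hs]; ring
    have hG : gam (J + 1) h = h 0 + 2 * gam J h' := rfl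
    set G : ℝ := (gam (J + 1) h : ℝ) with hGdef
    have hGpos : 0 < G := by rw [hGdef]; exact Nat.cast_pos.2 hg
    have hGeq : G = (h 0 : ℝ) + 2 * (gam J h' : ℝ) := by
      rw [hGdef, hG]; push_cast; ring
    by_cases hown : o * G ≤ P * (h 0 : ℝ)
    · refine ⟨0, by omega, ?_, ?_⟩
      · by_contra hcon
        have h0 : h 0 = 0 := by omega
        rw [h0] at hown
        have : 0 < o * G := by positivity
        simp at hown
        linarith
      · have e1 : pot (J + 1) (Function.update u 0 (u 0 + 1)) = P + 11 / 5 * o := by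
          have e2 : (fun i => Function.update u 0 (u 0 + 1) (i + 1)) = u' := by
            funext i; simp [hu']
          simp only [pot, Function.update_self]
          rw [e2, hPeq, ← hs, ho, pow_succ]; ring
        rw [e1, mul_add, mul_one]
        have : o ≤ P * ((h 0 : ℝ) / G) := by
          rw [mul_div_assoc', le_div_iff₀ hGpos]
          exact hown
        have e3 : P * (11 / 5 * ((h 0 : ℝ) / G)) = 11 / 5 * (P * ((h 0 : ℝ) / G)) := by ring
        rw [e3]
        linarith
    · push Not at hown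
      have hg' : 0 < gam J h' := by
        by_contra hcon
        have h0 : gam J h' = 0 := by omega
        rw [h0] at hGeq
        have h1 : G = h 0 := by simpa using hGeq
        rw [h1] at hown
        have h4 : 0 ≤ s * (h 0 : ℝ) := by positivity
        rw [hPeq] at hown
        nlinarith
      obtain ⟨i, hi, hpos, hle⟩ := ih u' h' hg'
      refine ⟨i + 1, by omega, hpos, ?_⟩
      have e2 : (fun l => Function.update u (i + 1) (u (i + 1) + 1) (l + 1))
          = Function.update u' i (u' i + 1) := by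
        funext l
        by_cases hl : l = i
        · subst hl; simp [hu']
        · have : l + 1 ≠ i + 1 := by omega
          simp [Function.update_of_ne hl, Function.update_of_ne this, hu']
      have e1 : pot (J + 1) (Function.update u (i + 1) (u (i + 1) + 1))
          = o + 4 * Real.sqrt (pot J (Function.update u' i (u' i + 1))) / 5 := by
        simp only [pot]
        rw [e2]
        have : Function.update u (i + 1) (u (i + 1) + 1) 0 = u 0 := by
          rw [Function.update_of_ne (by omega)]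
        rw [this, ho]; ring
      set G' : ℝ := (gam J h' : ℝ) with hG'
      have hG'pos : 0 < G' := by rw [hG']; exact Nat.cast_pos.2 hg'
      set ρ : ℝ := (h' i : ℝ) / G' with hρ
      have hρ0 : 0 ≤ ρ := by positivity
      have h5 : Real.sqrt (pot J (Function.update u' i (u' i + 1))) ≤ s * (1 + 11 / 10 * ρ) := by
        have h6 : pot J (Function.update u' i (u' i + 1)) ≤ (s * (1 + 11 / 10 * ρ)) ^ 2 := by
          have h7 : s ^ 2 = pot J u' := Real.sq_sqrt (pot_pos _ _).le
          calc pot J (Function.update u' i (u' i + 1)) ≤ pot J u' * (1 + 11 / 5 * ρ) := hle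
            _ ≤ pot J u' * (1 + 11 / 10 * ρ) ^ 2 := by
                refine mul_le_mul_of_nonneg_left ?_ (pot_pos _ _).le
                nlinarith [sq_nonneg ρ]
            _ = (s * (1 + 11 / 10 * ρ)) ^ 2 := by rw [mul_pow, h7]
        calc Real.sqrt (pot J (Function.update u' i (u' i + 1)))
            ≤ Real.sqrt ((s * (1 + 11 / 10 * ρ)) ^ 2) := Real.sqrt_le_sqrt h6
          _ = s * (1 + 11 / 10 * ρ) := Real.sqrt_sq (by positivity)
      rw [e1]
      have h8 : o + 4 * Real.sqrt (pot J (Function.update u' i (u' i + 1))) / 5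
          ≤ P + 11 / 10 * (4 * s / 5 * ρ) := by
        rw [hPeq]; linarith
      refine le_trans h8 ?_
      have h9 : 4 * s / 5 * G ≤ 2 * P * G' := by
        have h10 : P * G = o * G + 4 * s / 5 * G := by
          rw [hPeq]; ring
        have h11 : P * G = P * (h 0 : ℝ) + 2 * P * G' := by rw [hGeq]; ring
        linarith
      have h12 : 4 * s / 5 * ρ ≤ 2 * (P * ((h (i + 1) : ℝ) / G)) := by
        have e3 : (h (i + 1) : ℝ) = ρ * G' := by
          rw [hρ, div_mul_cancel₀ _ hG'pos.ne']
        have e4 : 2 * (P * ((h (i + 1) : ℝ) / G)) = (2 * P * G') * ρ / G := by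
          rw [e3]; field_simp
        have e5 : 4 * s / 5 * ρ = (4 * s / 5 * G) * ρ / G := by
          field_simp
        rw [e4, e5]
        exact div_le_div_of_nonneg_right (mul_le_mul_of_nonneg_right h9 hρ0) hGpos.le
      rw [mul_add, mul_one]
      have e6 : P * (11 / 5 * ((h (i + 1) : ℝ) / G)) = 11 / 10 * (2 * (P * ((h (i + 1) : ℝ) / G))) := by
        ring
      rw [e6]
      linarith

theorem usage : ∀ (J : ℕ) (u : ℕ → ℕ) (a : ℝ), pot J u ≤ a → ∀ i < J,
    (16 / 5 : ℝ) ^ (u i) ≤ 16 / 5 * (25 / 16 * a) ^ (2 ^ i) := by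
  intro J
  induction J with
  | zero => intro u a _ i hi; omega
  | succ J ih =>
    intro u a h i hi
    have ha : 0 < a := lt_of_lt_of_le (pot_pos _ _) h
    have h0 := Real.sqrt_nonneg (pot J fun i => u (i + 1))
    simp only [pot] at h
    have h2pos : (0:ℝ) < (16 / 5) ^ (u 0) := by positivity
    cases i with
    | zero => simp only [pow_zero, pow_one]; linarith
    | succ i =>
      have h1 : Real.sqrt (pot J fun i => u (i + 1)) ≤ 5 / 4 * a := by linarith
      have h2 : pot J (fun i => u (i + 1)) ≤ 25 / 16 * a ^ 2 := by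
        have := Real.sq_sqrt (pot_pos J fun i => u (i + 1)).le
        nlinarith
      have h3 := ih (fun i => u (i + 1)) _ h2 i (by omega)
      calc (16 / 5 : ℝ) ^ (u (i + 1)) ≤ 16 / 5 * (25 / 16 * (25 / 16 * a ^ 2)) ^ (2 ^ i) := h3
        _ = 16 / 5 * (25 / 16 * a) ^ (2 ^ (i + 1)) := by
            rw [pow_succ 2 i, mul_comm (2 ^ i) 2, pow_mul]
            congr 2; ring

theorem usage_le (J : ℕ) (u : ℕ → ℕ) (a : ℝ) (c : ℕ) (h : pot J u ≤ a)
    (hc : 25 / 16 * a < (16 / 5) ^ c) (i : ℕ) (hi : i < J) :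
    u i ≤ c * 2 ^ i := by
  have ha : 0 < a := lt_of_lt_of_le (pot_pos _ _) h
  have h1 := usage J u a h i hi
  have h2 : (25 / 16 * a) ^ (2 ^ i) < ((16 / 5 : ℝ) ^ c) ^ (2 ^ i) :=
    pow_lt_pow_left₀ hc (by positivity) (by positivity)
  have h3 : (16 / 5 : ℝ) ^ (u i) < (16 / 5) ^ (c * 2 ^ i + 1) := by
    rw [pow_succ, pow_mul, mul_comm _ (16 / 5 : ℝ)]
    exact lt_of_le_of_lt h1 (mul_lt_mul_of_pos_left h2 (by norm_num))
  have h4 := (pow_lt_pow_iff_right₀ (by norm_num : (1:ℝ) < 16 / 5)).1 h3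
  omega

theorem gam_eq : ∀ (J : ℕ) (h : ℕ → ℕ), gam J h = ∑ j ∈ range J, 2 ^ j * h j
  | 0, _ => by simp [gam]
  | J + 1, h => by
    rw [gam, gam_eq J, sum_range_succ', mul_sum]
    simp only [pow_zero, one_mul, pow_succ]
    rw [add_comm]
    congr 1
    refine sum_congr rfl fun j _ => ?_
    ring

/-- number of elements of `S` where `f` is at least `4 * 2 ^ j` -/
def cnt {V : Type*} (S : Finset V) (f : V → ℕ) (j : ℕ) : ℕ :=
  (S.filter fun y => 4 * 2 ^ j ≤ f y).card

theorem gam_cnt {V : Type*} (S : Finset V) (f : V → ℕ) (J : ℕ) :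
    gam J (cnt S f) = ∑ y ∈ S, ∑ j ∈ range J, if 4 * 2 ^ j ≤ f y then 2 ^ j else 0 := by
  rw [gam_eq, sum_comm]
  refine sum_congr rfl fun j _ => ?_
  rw [cnt, card_filter, mul_sum]
  refine sum_congr rfl fun y _ => ?_
  split_ifs <;> simp

theorem gam_sdiff {V : Type*} [DecidableEq V] {X Y : Finset V} (h : Y ⊆ X) (f : V → ℕ) (J : ℕ) :
    gam J (cnt (X \ Y) f) + gam J (cnt Y f) = gam J (cnt X f) := by
  rw [gam_cnt, gam_cnt, gam_cnt]
  exact sum_sdiff h

theorem thresholds (t : ℕ) : ∀ J : ℕ, t < 4 * 2 ^ J →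
    t ≤ 3 + 4 * ∑ j ∈ range J, if 4 * 2 ^ j ≤ t then 2 ^ j else 0 := by
  intro J
  induction J with
  | zero => intro h; simp at h; omega
  | succ J ih =>
    intro h
    by_cases h1 : t < 4 * 2 ^ J
    · refine (ih h1).trans ?_
      rw [sum_range_succ]
      omega
    · push Not at h1
      have h2 : ∑ j ∈ range (J + 1), (if 4 * 2 ^ j ≤ t then 2 ^ j else 0)
          = ∑ j ∈ range (J + 1), 2 ^ j := by
        refine sum_congr rfl fun j hj => ?_
        rw [if_pos]
        rw [mem_range] at hj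
        have : 2 ^ j ≤ 2 ^ J := Nat.pow_le_pow_right (by norm_num) (by omega)
        omega
      have h3 : ∑ j ∈ range (J + 1), 2 ^ j = 2 ^ (J + 1) - 1 := by
        have := Nat.geomSum_eq (m := 2) le_rfl (J + 1)
        rw [this]; simp
      have h4 : 0 < 2 ^ (J + 1) := by positivity
      rw [h2, h3]
      omega

theorem mass_le {V : Type*} (S : Finset V) (f : V → ℕ) (J : ℕ)
    (hJ : ∀ y ∈ S, f y < 4 * 2 ^ J) :
    ∑ y ∈ S, f y ≤ 3 * (S.filter fun y => 0 < f y).card + 4 * gam J (cnt S f) := by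
  rw [gam_cnt, card_filter, mul_sum, mul_sum, ← sum_add_distrib]
  refine sum_le_sum fun y hy => ?_
  by_cases h0 : 0 < f y
  · rw [if_pos h0, mul_one]
    exact thresholds (f y) J (hJ y hy)
  · omega

end Pool.Agent.H16.Rb
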