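import Mathlib
import Pool.Agent.H16.Rb.Potential

set_option autoImplicit false

namespace Pool.Agent.H16.Rb

open Finset

variable {V : Type}

/-- number of steps `i < ℓ` of the walk `x` with a given property -/
noncomputable def cw (P : V → V → Prop) (x : ℕ → V) (ℓ : ℕ) : ℕ := by
  classical
  exact ((range ℓ).filter fun i => P (x i) (x (i + 1))).card

theorem cw_le_of_map {P : V → V → Prop} {x y : ℕ → V} {ℓ ℓ' : ℕ} (φ : ℕ → ℕ)
    (hinj : Set.InjOn φ (Set.Iio ℓ')) (hlt : ∀ i < ℓ', φ i < ℓ)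
    (h0 : ∀ i < ℓ', y i = x (φ i)) (h1 : ∀ i < ℓ', y (i + 1) = x (φ i + 1)) :
    cw P y ℓ' ≤ cw P x ℓ := by
  classical
  unfold cw
  refine card_le_card_of_injOn φ ?_ ?_
  · intro i hi
    simp only [coe_filter, mem_range, Set.mem_ofPred_eq] at hi ⊢
    refine ⟨hlt i hi.1, ?_⟩
    rw [← h0 i hi.1, ← h1 i hi.1]
    exact hi.2
  · intro i hi j hj hij
    simp only [coe_filter, mem_range, Set.mem_ofPred_eq] at hi hj
    exact hinj hi.1 hj.1 hij

theorem cw_le_len {P : V → V → Prop} {x : ℕ → V} {ℓ : ℕ} : cw P x ℓ ≤ ℓ := by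
  classical
  unfold cw
  exact (card_le_card (filter_subset _ _)).trans (card_range ℓ).le

theorem cw_eq_zero {P : V → V → Prop} {x : ℕ → V} {ℓ : ℕ}
    (h : ∀ i < ℓ, ¬ P (x i) (x (i + 1))) : cw P x ℓ = 0 := by
  classical
  unfold cw
  rw [card_eq_zero, filter_eq_empty_iff]
  intro i hi
  rw [mem_range] at hi
  exact h i hi

theorem cw_le_fiber {P : V → V → Prop} {x : ℕ → V} {ℓ : ℕ} (f : V → V → ℕ) (s : ℕ)
    (h : ∀ a b, P a b → f a b < s) :
    cw P x ℓ ≤ ∑ j ∈ range s, cw (fun a b => f a b = j) x ℓ := by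
  classical
  unfold cw
  rw [card_eq_sum_card_fiberwise (f := fun i => f (x i) (x (i + 1))) (t := range s)]
  · refine sum_le_sum fun j _ => card_le_card ?_
    intro i hi
    simp only [mem_filter, mem_range] at hi ⊢
    exact ⟨hi.1.1, hi.2⟩
  · intro i hi
    simp only [coe_filter, mem_range, Set.mem_ofPred_eq, coe_range, Set.mem_Iio] at hi ⊢
    exact h _ _ hi.2

/-- Hall's condition for the sets of labels along a walk -/
def HallW (m : V → V → ℕ) (x : ℕ → V) (ℓ : ℕ) : Prop :=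
  ∀ τ, cw (fun a b => m a b ≤ τ) x ℓ ≤ τ

theorem closed_simple (m : V → V → ℕ) (x : ℕ → V) (ℓ : ℕ) (hℓ : 0 < ℓ) (hx : x 0 = x ℓ)
    (hH : HallW m x ℓ) : ∃ (y : ℕ → V) (ℓ' : ℕ), 0 < ℓ' ∧ y 0 = y ℓ' ∧ HallW m y ℓ' ∧
      ∀ i < ℓ', ∀ j < ℓ', y i = y j → i = j := by
  induction ℓ using Nat.strong_induction_on generalizing x with
  | _ ℓ ih =>
    by_cases hs : ∀ i < ℓ, ∀ j < ℓ, x i = x j → i = j
    · exact ⟨x, ℓ, hℓ, hx, hH, hs⟩
    · push Not at hs
      obtain ⟨i, hi, j, hj, hij, hne⟩ := hs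
      have key : ∀ a b, a < b → b < ℓ → x a = x b → ∃ (y : ℕ → V) (ℓ' : ℕ), 0 < ℓ' ∧
          y 0 = y ℓ' ∧ HallW m y ℓ' ∧ ∀ i < ℓ', ∀ j < ℓ', y i = y j → i = j := by
        intro a b hab hb hxab
        refine ih (b - a) (by omega) (fun i => x (a + i)) (by omega) ?_ ?_
        · show x (a + 0) = x (a + (b - a))
          rw [Nat.add_zero, Nat.add_sub_cancel' hab.le, hxab]
        · intro τ
          refine le_trans (cw_le_of_map (fun i => a + i) ?_ ?_ ?_ ?_) (hH τ)
          · intro p _ q _ hpq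
            simpa using hpq
          · intro i hi; omega
          · intro i _; rfl
          · intro i _; rfl
      rcases lt_or_gt_of_ne hne with h | h
      · exact key i j h hj hij
      · exact key j i h hi hij.symm

theorem path_simple (m : V → V → ℕ) (v w : V) (x : ℕ → V) (ℓ : ℕ) (h0 : x 0 = v) (h1 : x ℓ = w)
    (hH : HallW m x ℓ) : ∃ (y : ℕ → V) (ℓ' : ℕ), y 0 = v ∧ y ℓ' = w ∧ HallW m y ℓ' ∧
      ∀ i ≤ ℓ', ∀ j ≤ ℓ', y i = y j → i = j := by
  induction ℓ using Nat.strong_induction_on generalizing x with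
  | _ ℓ ih =>
    by_cases hs : ∀ i ≤ ℓ, ∀ j ≤ ℓ, x i = x j → i = j
    · exact ⟨x, ℓ, h0, h1, hH, hs⟩
    · push Not at hs
      obtain ⟨i, hi, j, hj, hij, hne⟩ := hs
      have key : ∀ a b, a < b → b ≤ ℓ → x a = x b → ∃ (y : ℕ → V) (ℓ' : ℕ),
          y 0 = v ∧ y ℓ' = w ∧ HallW m y ℓ' ∧ ∀ i ≤ ℓ', ∀ j ≤ ℓ', y i = y j → i = j := by
        intro a b hab hb hxab
        have e : ∀ i, a ≤ i → (if i ≤ a then x i else x (i + (b - a))) = x (i + (b - a)) := by
          intro i hi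
          by_cases h : i ≤ a
          · have : i = a := le_antisymm h hi
            subst this
            rw [if_pos le_rfl, Nat.add_sub_cancel' hab.le, hxab]
          · rw [if_neg h]
        refine ih (ℓ - (b - a)) (by omega) (fun i => if i ≤ a then x i else x (i + (b - a)))
          ?_ ?_ ?_
        · rw [if_pos (Nat.zero_le _), h0]
        · rw [e _ (by omega), Nat.sub_add_cancel (by omega), h1]
        · intro τ
          refine le_trans (cw_le_of_map (fun i => if i < a then i else i + (b - a)) ?_ ?_ ?_ ?_)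
            (hH τ)
          · intro p _ q _ hpq
            dsimp only at hpq
            split_ifs at hpq <;> omega
          · intro i hi
            split_ifs <;> omega
          · intro i hi
            by_cases h : i < a
            · rw [if_pos h, if_pos h.le]
            · rw [if_neg h, e i (by omega)]
          · intro i hi
            by_cases h : i < a
            · rw [if_pos h, if_pos (by omega)]
            · rw [if_neg h, e (i + 1) (by omega)]
              congr 1; omega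
      rcases lt_or_gt_of_ne hne with h | h
      · exact key i j h hj hij
      · exact key j i h hi hij.symm

/-- concatenation of walks -/
theorem exists_concat (x y : ℕ → V) (p q : ℕ) (h : x p = y 0) :
    ∃ z : ℕ → V, z 0 = x 0 ∧ z (p + q) = y q ∧
      (∀ i < p + q, (∃ j < p, z i = x j ∧ z (i + 1) = x (j + 1)) ∨
        ∃ j < q, z i = y j ∧ z (i + 1) = y (j + 1)) ∧
      ∀ P : V → V → Prop, cw P z (p + q) ≤ cw P x p + cw P y q := by
  classical
  have e : ∀ j, (if p + j ≤ p then x (p + j) else y (p + j - p)) = y j := by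
    intro j
    by_cases hj : j = 0
    · subst hj; rw [Nat.add_zero, if_pos le_rfl, h]
    · rw [if_neg (by omega), Nat.add_sub_cancel_left]
  refine ⟨fun i => if i ≤ p then x i else y (i - p), by simp, e q, ?_, ?_⟩
  · intro i hi
    by_cases hip : i < p
    · refine Or.inl ⟨i, hip, ?_, ?_⟩
      · dsimp only; rw [if_pos hip.le]
      · dsimp only; rw [if_pos (by omega)]
    · refine Or.inr ⟨i - p, by omega, ?_, ?_⟩
      · have := e (i - p)
        rw [Nat.add_sub_cancel' (by omega)] at this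
        exact this
      · have := e (i - p + 1)
        have h2 : p + (i - p + 1) = i + 1 := by omega
        rw [h2] at this
        exact this
  · intro P
    unfold cw
    rw [Finset.range_eq_Ico, ← Finset.Ico_union_Ico_eq_Ico (Nat.zero_le p) (Nat.le_add_right p q),
      filter_union]
    refine le_trans (card_union_le _ _) (add_le_add ?_ ?_)
    · refine card_le_card ?_
      intro i hi
      simp only [mem_filter, mem_Ico, mem_range] at hi ⊢
      obtain ⟨⟨_, hi1⟩, hi2⟩ := hi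
      rw [if_pos hi1.le, if_pos (by omega)] at hi2
      exact ⟨hi1, hi2⟩
    · refine card_le_card_of_injOn (fun i => i - p) ?_ ?_
      · intro i hi
        simp only [coe_filter, mem_Ico, Set.mem_ofPred_eq, mem_range] at hi ⊢
        obtain ⟨⟨hi0, hi1⟩, hi2⟩ := hi
        have e1 := e (i - p)
        rw [Nat.add_sub_cancel' hi0] at e1
        have e2 := e (i - p + 1)
        have h2 : p + (i - p + 1) = i + 1 := by omega
        rw [h2] at e2
        rw [e1, e2] at hi2
        exact ⟨by omega, hi2⟩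
      · intro i hi j hj hij
        simp only [coe_filter, mem_Ico, Set.mem_ofPred_eq] at hi hj
        dsimp only at hij
        omega

theorem cw_mono {P Q : V → V → Prop} {x : ℕ → V} {ℓ : ℕ} (h : ∀ a b, P a b → Q a b) :
    cw P x ℓ ≤ cw Q x ℓ := by
  classical
  unfold cw
  refine card_le_card ?_
  intro i hi
  simp only [mem_filter] at hi ⊢
  exact ⟨hi.1, h _ _ hi.2⟩

/-- heavy walks: all multiplicities are at least `4`, and at most `U j` of them are less
than `4 * 2 ^ (j + 1)` -/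
def HW (m : V → V → ℕ) (U : ℕ → ℕ) (v w : V) : Prop :=
  ∃ (ℓ : ℕ) (x : ℕ → V), x 0 = v ∧ x ℓ = w ∧ (∀ i < ℓ, 4 ≤ m (x i) (x (i + 1))) ∧
    ∀ j, cw (fun a b => m a b < 4 * 2 ^ (j + 1)) x ℓ ≤ U j

theorem HW.refl (m : V → V → ℕ) (U : ℕ → ℕ) (v : V) : HW m U v v :=
  ⟨0, fun _ => v, rfl, rfl, by simp, by simp [cw]⟩

theorem HW.mono {m : V → V → ℕ} {U U' : ℕ → ℕ} {v w : V} (h : HW m U v w)
    (hu : ∀ j, U j ≤ U' j) : HW m U' v w := by
  obtain ⟨ℓ, x, h0, h1, h2, h3⟩ := h
  exact ⟨ℓ, x, h0, h1, h2, fun j => (h3 j).trans (hu j)⟩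

theorem HW.trans {m : V → V → ℕ} {U U' : ℕ → ℕ} {v w z : V} (h : HW m U v w)
    (h' : HW m U' w z) : HW m (fun j => U j + U' j) v z := by
  obtain ⟨p, x, h0, h1, h2, h3⟩ := h
  obtain ⟨q, y, g0, g1, g2, g3⟩ := h'
  obtain ⟨t, t0, t1, t2, t3⟩ := exists_concat x y p q (by rw [h1, g0])
  refine ⟨p + q, t, by rw [t0, h0], by rw [t1, g1], ?_, ?_⟩
  · intro i hi
    rcases t2 i hi with ⟨j, hj, e1, e2⟩ | ⟨j, hj, e1, e2⟩
    · rw [e1, e2]; exact h2 j hj
    · rw [e1, e2]; exact g2 j hj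
  · intro j
    exact (t3 _).trans (add_le_add (h3 j) (g3 j))

theorem HW.edge {m : V → V → ℕ} {v w : V} (i : ℕ) (h : 4 * 2 ^ i ≤ m v w) :
    HW m (fun j => if i ≤ j then 1 else 0) v w := by
  classical
  have h2i : 0 < 2 ^ i := by positivity
  refine ⟨1, fun i => if i = 0 then v else w, by simp, by simp, ?_, ?_⟩
  · intro l hl
    have : l = 0 := by omega
    subst this
    simp only [if_pos, Nat.zero_add, one_ne_zero, if_false]
    omega
  · intro j
    by_cases hj : i ≤ j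
    · simp only [if_pos hj]
      exact cw_le_len.trans le_rfl
    · simp only [if_neg hj]
      refine (cw_eq_zero ?_).le
      intro l hl
      have : l = 0 := by omega
      subst this
      simp only [if_pos, Nat.zero_add, one_ne_zero, if_false, not_lt]
      have : 2 ^ (j + 1) ≤ 2 ^ i := Nat.pow_le_pow_right (by norm_num) (by omega)
      omega

/-- Hall's condition for heavy walks -/
theorem hall_of_heavy {m : V → V → ℕ} {ℓ : ℕ} {x : ℕ → V}
    (h2 : ∀ i < ℓ, 4 ≤ m (x i) (x (i + 1)))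
    (h3 : ∀ j, cw (fun a b => m a b < 4 * 2 ^ (j + 1)) x ℓ ≤ 4 * 2 ^ j) : HallW m x ℓ := by
  intro τ
  by_cases hτ : τ < 4
  · have : cw (fun a b => m a b ≤ τ) x ℓ = 0 := by
      refine cw_eq_zero fun i hi => ?_
      have := h2 i hi
      omega
    rw [this]; exact Nat.zero_le _
  · push Not at hτ
    have h4 : 2 ^ Nat.log 2 (τ / 4) ≤ τ / 4 := Nat.pow_log_le_self 2 (by omega)
    have h5 : τ / 4 < 2 ^ (Nat.log 2 (τ / 4) + 1) := Nat.lt_pow_succ_log_self (by norm_num) _
    refine (cw_mono ?_).trans ((h3 (Nat.log 2 (τ / 4))).trans ?_)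
    · intro a b hab
      omega
    · omega

theorem HW.hall {m : V → V → ℕ} {U : ℕ → ℕ} {v w : V} (h : HW m U v w)
    (hu : ∀ j, U j ≤ 4 * 2 ^ j) : ∃ (ℓ : ℕ) (x : ℕ → V), x 0 = v ∧ x ℓ = w ∧ HallW m x ℓ := by
  obtain ⟨ℓ, x, h0, h1, h2, h3⟩ := h
  exact ⟨ℓ, x, h0, h1, hall_of_heavy h2 fun j => (h3 j).trans (hu j)⟩

/-- two heavy walks `v → w → v` with `v ≠ w` and total budget at most `4 * 2 ^ j` give a closed
walk with Hall's condition -/
theorem HW.closed {m : V → V → ℕ} {U U' : ℕ → ℕ} {v w : V} (h : HW m U v w)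
    (h' : HW m U' w v) (hne : v ≠ w) (hu : ∀ j, U j + U' j ≤ 4 * 2 ^ j) :
    ∃ (x : ℕ → V) (ℓ : ℕ), 0 < ℓ ∧ x 0 = x ℓ ∧ HallW m x ℓ := by
  obtain ⟨ℓ, x, h0, h1, h2, h3⟩ := h
  obtain ⟨q, z, k0, k1, k2, k3⟩ := h'
  have hp : 0 < ℓ := by
    rcases Nat.eq_zero_or_pos ℓ with h | h
    · exfalso; subst h; exact hne (by rw [← h0, ← h1])
    · exact h
  obtain ⟨t, t0, t1, t2, t3⟩ := exists_concat x z ℓ q (by rw [h1, k0])
  refine ⟨t, ℓ + q, by omega, by rw [t0, t1, h0, k1], ?_⟩
  refine hall_of_heavy ?_ ?_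
  · intro i hi
    rcases t2 i hi with ⟨j, hj, e1, e2⟩ | ⟨j, hj, e1, e2⟩
    · rw [e1, e2]; exact h2 j hj
    · rw [e1, e2]; exact k2 j hj
  · intro j
    exact (t3 _).trans ((add_le_add (h3 j) (k3 j)).trans (hu j))

/-- prefix sums of a usage vector -/
def pre (u : ℕ → ℕ) (j : ℕ) : ℕ := ∑ i ∈ range (j + 1), u i

theorem pre_update (u : ℕ → ℕ) (i j : ℕ) :
    pre (Function.update u i (u i + 1)) j = pre u j + if i ≤ j then 1 else 0 := by
  unfold pre
  by_cases hij : i ≤ j
  · rw [if_pos hij, sum_update_of_mem (by rw [mem_range]; omega)]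
    have h1 := add_sum_erase (range (j + 1)) u (a := i) (by rw [mem_range]; omega)
    rw [sdiff_singleton_eq_erase]
    omega
  · rw [if_neg hij, sum_update_of_notMem (by rw [mem_range]; omega)]
    rfl

theorem pre_zero (j : ℕ) : pre (fun _ => 0) j = 0 := by simp [pre]

theorem pre_le (u : ℕ → ℕ) (c : ℕ) (h : ∀ i, u i ≤ c * 2 ^ i) (j : ℕ) :
    pre u j + c ≤ 2 * c * 2 ^ j := by
  have h1 : pre u j ≤ ∑ i ∈ range (j + 1), c * 2 ^ i := sum_le_sum fun i _ => h i
  rw [← mul_sum] at h1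
  have h7 : ∑ i ∈ range (j + 1), 2 ^ i = 2 ^ (j + 1) - 1 := by
    have := Nat.geomSum_eq (m := 2) le_rfl (j + 1)
    rw [this]; simp
  rw [h7] at h1
  have h8 : 0 < 2 ^ (j + 1) := by positivity
  have h9 : c * (2 ^ (j + 1) - 1) + c = c * 2 ^ (j + 1) := by
    rw [Nat.mul_sub, mul_one, Nat.sub_add_cancel]
    exact Nat.le_mul_of_pos_right c h8
  have h10 : c * 2 ^ (j + 1) = 2 * c * 2 ^ j := by rw [pow_succ]; ring
  omega

end Pool.Agent.H16.Rb
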