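import Mathlib
import Pool.Agent.H16.Rb.Walks

set_option autoImplicit false

namespace Pool.Agent.H16.Rb

open Finset

variable {V : Type}

/-- one step of the growth process -/
theorem one_step [DecidableEq V] (m : V → V → ℕ) (J : ℕ) (S Y : Finset V) (v₀ v : V) (u : ℕ → ℕ) (hu : ∀ i, J ≤ i → u i = 0)
    (hv : HW m (pre u) v₀ v) (hY : ∀ y ∈ Y, HW m (pre u) v₀ y)
    (r : ℝ) (hr : 0 < r) (hg : 11 * r ≤ 5 * (gam J (cnt S (m v)) : ℝ)) :
    ∃ (T : Finset V) (i : ℕ), i < J ∧ T.Nonempty ∧ T ⊆ S ∧
      (∀ y ∈ Y ∪ T, HW m (pre (Function.update u i (u i + 1))) v₀ y) ∧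
      (∀ l, J ≤ l → Function.update u i (u i + 1) l = 0) ∧
      pot J (Function.update u i (u i + 1)) ≤ pot J u * (1 + (T.card : ℝ) / r) := by
  have hgam : 0 < gam J (cnt S (m v)) := by
    have : (0:ℝ) < gam J (cnt S (m v)) := by linarith
    exact_mod_cast this
  obtain ⟨i, hi, hpos, hle⟩ := step J u (cnt S (m v)) hgam
  refine ⟨S.filter fun y => 4 * 2 ^ i ≤ m v y, i, hi, card_pos.1 hpos, filter_subset _ _, ?_, ?_,
    ?_⟩
  · intro y hy
    rcases mem_union.1 hy with hy | hy
    · refine (hY y hy).mono fun j => ?_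
      rw [pre_update]; omega
    · rw [mem_filter] at hy
      refine (hv.trans (HW.edge i hy.2)).mono fun j => ?_
      rw [pre_update]
  · intro l hl
    rw [Function.update_of_ne (by omega)]
    exact hu l hl
  · refine hle.trans (mul_le_mul_of_nonneg_left ?_ (pot_pos _ _).le)
    have h1 : (0:ℝ) < gam J (cnt S (m v)) := by linarith
    have h2 : (0:ℝ) ≤ (cnt S (m v) i : ℝ) := Nat.cast_nonneg _
    have h3 : (cnt S (m v) i : ℝ) / gam J (cnt S (m v)) * (11 / 5) ≤ (cnt S (m v) i : ℝ) / r := by
      rw [div_mul_eq_mul_div, div_le_div_iff₀ h1 hr]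
      nlinarith
    have h4 : ((S.filter fun y => 4 * 2 ^ i ≤ m v y).card : ℝ) = (cnt S (m v) i : ℝ) := rfl
    rw [h4]
    linarith

theorem double_count [DecidableEq V] (X : Finset V) (R : V → V → Prop) [DecidableRel R]
    (h : ∀ a ∈ X, ∀ b ∈ X, R a b → R b a → a = b) :
    2 * ∑ a ∈ X, (X.filter (R a)).card ≤ X.card * X.card + X.card := by
  have h1 : ∑ a ∈ X, (X.filter (R a)).card = ((X ×ˢ X).filter fun p => R p.1 p.2).card := by
    rw [card_filter, sum_product]
    refine sum_congr rfl fun a _ => ?_
    rw [card_filter]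
  have h2 : ((X ×ˢ X).filter fun p => R p.1 p.2).card
      = ((X ×ˢ X).filter fun p => R p.2 p.1).card := by
    refine card_bij (fun p _ => (p.2, p.1)) ?_ ?_ ?_
    · intro p hp
      simp only [mem_filter, mem_product] at hp ⊢
      exact ⟨⟨hp.1.2, hp.1.1⟩, hp.2⟩
    · intro p _ q _ hpq
      simp only [Prod.mk.injEq] at hpq
      exact Prod.ext hpq.2 hpq.1
    · intro p hp
      simp only [mem_filter, mem_product] at hp
      refine ⟨(p.2, p.1), ?_, rfl⟩
      simp only [mem_filter, mem_product]
      exact ⟨⟨hp.1.2, hp.1.1⟩, hp.2⟩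
  have h3 := card_union_add_card_inter ((X ×ˢ X).filter fun p => R p.1 p.2)
    ((X ×ˢ X).filter fun p => R p.2 p.1)
  have h4 : (((X ×ˢ X).filter fun p => R p.1 p.2) ∪ ((X ×ˢ X).filter fun p => R p.2 p.1)).card
      ≤ X.card * X.card := by
    rw [← card_product]
    exact card_le_card (union_subset (filter_subset _ _) (filter_subset _ _))
  have h5 : (((X ×ˢ X).filter fun p => R p.1 p.2) ∩ ((X ×ˢ X).filter fun p => R p.2 p.1)).card
      ≤ X.card := by
    rw [← diag_card X]
    refine card_le_card ?_
    intro p hp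
    simp only [mem_inter, mem_filter, mem_product] at hp
    rw [mem_diag]
    exact ⟨hp.1.1.1, h _ hp.1.1.1 _ hp.1.1.2 hp.1.2 hp.2.2⟩
  omega

/-- the ball of every root is more than half of `X` -/
theorem ball_large [DecidableEq V] (m : V → V → ℕ) (J : ℕ) (X : Finset V) (hX2 : 2 ≤ X.card)
    (hdeg : ∀ v ∈ X, 11 * X.card ≤ 5 * gam J (cnt X (m v)))
    (hY : ∀ Y ⊂ X, Y.Nonempty → ∃ v ∈ Y, 5 * gam J (cnt Y (m v)) < 11 * Y.card)
    (v₀ : V) (hv₀ : v₀ ∈ X) :
    ∃ B ⊆ X, (∀ y ∈ B, HW m (fun j => 2 * 2 ^ j) v₀ y) ∧ X.card + 1 < 2 * B.card := by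
  have main : ∀ (n : ℕ) (Y : Finset V) (u : ℕ → ℕ), (X \ Y).card = n → v₀ ∈ Y → Y ⊆ X →
      2 * Y.card ≤ X.card + 1 → (∀ i, J ≤ i → u i = 0) → (∀ y ∈ Y, HW m (pre u) v₀ y) →
      pot J u * ((X.card : ℝ) - Y.card) ≤ X.card - 1 →
      ∃ B ⊆ X, (∀ y ∈ B, HW m (fun j => 2 * 2 ^ j) v₀ y) ∧ X.card + 1 < 2 * B.card := by
    intro n
    induction n using Nat.strong_induction_on with
    | _ n ih =>
      intro Y u hn hvY hYX hc hu hW hpot
      have hne : Y ≠ X := by
        intro h; rw [h] at hc; omega
      obtain ⟨v, hv, hlt⟩ := hY Y (Finset.ssubset_iff_subset_ne.2 ⟨hYX, hne⟩) ⟨v₀, hvY⟩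
      have h1 := hdeg v (hYX hv)
      have h2 := gam_sdiff hYX (m v) J
      have h3 : (2:ℝ) * Y.card ≤ X.card + 1 := by exact_mod_cast hc
      have h4 : (2:ℝ) ≤ X.card := by exact_mod_cast hX2
      have hr : (0:ℝ) < (X.card : ℝ) - Y.card := by linarith
      have hg : 11 * ((X.card : ℝ) - Y.card) ≤ 5 * (gam J (cnt (X \ Y) (m v)) : ℝ) := by
        have h5 : 11 * X.card ≤ 5 * gam J (cnt (X \ Y) (m v)) + 11 * Y.card := by omega
        have h6 : (11:ℝ) * X.card ≤ 5 * (gam J (cnt (X \ Y) (m v)) : ℝ) + 11 * Y.card := by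
          exact_mod_cast h5
        linarith
      obtain ⟨T, i, hi, hTne, hTS, hW', hu', hpot'⟩ := one_step m J (X \ Y) Y v₀ v u
        hu (hW v hv) hW ((X.card : ℝ) - Y.card) hr hg
      have hdisj : Disjoint Y T := disjoint_of_subset_right hTS disjoint_sdiff
      have hcard : (Y ∪ T).card = Y.card + T.card := card_union_of_disjoint hdisj
      have hsub : Y ∪ T ⊆ X := union_subset hYX (hTS.trans sdiff_subset)
      by_cases hstop : 2 * (Y ∪ T).card ≤ X.card + 1
      · refine ih (X \ (Y ∪ T)).card ?_ (Y ∪ T) (Function.update u i (u i + 1)) rfl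
          (mem_union_left _ hvY) hsub hstop hu' hW' ?_
        · have e1 := card_sdiff_add_card_eq_card hYX
          have e2 := card_sdiff_add_card_eq_card hsub
          have e3 := hTne.card_pos
          omega
        · rw [hcard]
          push_cast
          have e1 : (0:ℝ) ≤ T.card := Nat.cast_nonneg _
          have e2 : (0:ℝ) ≤ (X.card : ℝ) - (Y.card + T.card) := by
            have : (Y.card : ℝ) + T.card ≤ X.card := by
              rw [hcard] at hstop
              have := card_le_card hsub
              rw [hcard] at this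
              exact_mod_cast this
            linarith
          calc pot J (Function.update u i (u i + 1)) * ((X.card : ℝ) - (Y.card + T.card))
              ≤ pot J u * (1 + (T.card : ℝ) / ((X.card : ℝ) - Y.card))
                  * ((X.card : ℝ) - (Y.card + T.card)) := mul_le_mul_of_nonneg_right hpot' e2
            _ = pot J u * ((1 + (T.card : ℝ) / ((X.card : ℝ) - Y.card))
                  * ((X.card : ℝ) - (Y.card + T.card))) := by ring
            _ ≤ pot J u * ((X.card : ℝ) - Y.card) := by
                refine mul_le_mul_of_nonneg_left ?_ (pot_pos _ _).le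
                have e3 : (1 + (T.card : ℝ) / ((X.card : ℝ) - Y.card))
                    * ((X.card : ℝ) - (Y.card + T.card))
                    = ((X.card : ℝ) - Y.card) - (T.card : ℝ) ^ 2 / ((X.card : ℝ) - Y.card) := by
                  field_simp
                  ring
                rw [e3]
                have : 0 ≤ (T.card : ℝ) ^ 2 / ((X.card : ℝ) - Y.card) := by positivity
                linarith
            _ ≤ X.card - 1 := hpot
      · push Not at hstop
        refine ⟨Y ∪ T, hsub, ?_, hstop⟩
        intro y hy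
        have hp2 : pot J u ≤ 2 := by
          have e1 : pot J u * (((X.card : ℝ) - 1) / 2) ≤ X.card - 1 :=
            le_trans (mul_le_mul_of_nonneg_left (by linarith) (pot_pos _ _).le) hpot
          by_contra hcon
          push Not at hcon
          have e2 : (0:ℝ) < (X.card : ℝ) - 1 := by linarith
          nlinarith
        have hus : ∀ l, u l ≤ 1 * 2 ^ l := by
          intro l
          by_cases hl : l < J
          · exact usage_le J u 2 1 hp2 (by norm_num) l hl
          · rw [hu l (by omega)]; exact Nat.zero_le _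
        refine (hW' y hy).mono fun j => ?_
        rw [pre_update]
        have := pre_le u 1 hus j
        split_ifs <;> omega
  refine main (X \ {v₀}).card {v₀} (fun _ => 0) rfl (mem_singleton_self _)
    (singleton_subset_iff.2 hv₀) (by rw [card_singleton]; omega) (fun _ _ => rfl) ?_ ?_
  · intro y hy
    rw [mem_singleton.1 hy]
    exact HW.refl _ _ _
  · rw [pot_zero, card_singleton]
    simp

/-- Part 1: large multidegree inside a set produces a closed walk with Hall's condition. -/
theorem part_one [DecidableEq V] (m : V → V → ℕ) (J : ℕ) (hm : ∀ a, m a a = 0)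
    (X : Finset V) (hX : X.Nonempty)
    (hdeg : ∀ v ∈ X, 11 * X.card ≤ 5 * gam J (cnt X (m v))) :
    ∃ (x : ℕ → V) (ℓ : ℕ), 0 < ℓ ∧ x 0 = x ℓ ∧ HallW m x ℓ := by
  classical
  induction X using Finset.strongInduction with
  | _ X ih =>
    by_cases hY : ∃ Y ⊂ X, Y.Nonempty ∧ ∀ v ∈ Y, 11 * Y.card ≤ 5 * gam J (cnt Y (m v))
    · obtain ⟨Y, hYX, hYne, hYdeg⟩ := hY
      exact ih Y hYX hYne hYdeg
    · push Not at hY
      have hXpos : 0 < X.card := hX.card_pos
      have hX2 : 2 ≤ X.card := by
        by_contra hcon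
        have h8 : X.card = 1 := by omega
        obtain ⟨a, ha⟩ := card_eq_one.1 h8
        have h5 := hdeg a (by rw [ha]; exact mem_singleton_self a)
        rw [gam_cnt, ha, sum_singleton, hm, card_singleton] at h5
        simp at h5
      have hcount : ∃ a ∈ X, ∃ b ∈ X, HW m (fun j => 2 * 2 ^ j) a b ∧
          HW m (fun j => 2 * 2 ^ j) b a ∧ a ≠ b := by
        by_contra hcon
        push Not at hcon
        have h1 := double_count X (HW m (fun j => 2 * 2 ^ j)) hcon
        have h2 : ∑ a ∈ X, (X.card + 2) ≤ ∑ a ∈ X, 2 * (X.filter (HW m (fun j => 2 * 2 ^ j) a)).card := by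
          refine sum_le_sum fun a ha => ?_
          obtain ⟨B, hBX, hB, hBc⟩ := ball_large m J X hX2 hdeg hY a ha
          have : B.card ≤ (X.filter (HW m (fun j => 2 * 2 ^ j) a)).card := by
            refine card_le_card fun y hy => ?_
            rw [mem_filter]
            exact ⟨hBX hy, hB y hy⟩
          omega
        rw [sum_const, smul_eq_mul, ← mul_sum] at h2
        have h3 : X.card * (X.card + 2) = X.card * X.card + 2 * X.card := by ring
        omega
      obtain ⟨a, _, b, _, hab, hba, hne⟩ := hcount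
      exact hab.closed hba hne fun j => by omega

/-- Part 2. `R v` contains every end of a nontrivial walk from `v` with Hall's condition. -/
theorem part_two [Fintype V] [DecidableEq V] [Nonempty V] (m : V → V → ℕ) (J : ℕ)
    (hJ : ∀ a b, m a b < 4 * 2 ^ J) (hm : ∀ a, m a a = 0) (R : V → Finset V)
    (hR : ∀ v w, w ≠ v → (∃ (ℓ : ℕ) (x : ℕ → V), x 0 = v ∧ x ℓ = w ∧ HallW m x ℓ) → w ∈ R v)
    (hs : ∀ v, 67 * (R v).card < 5 * ∑ y, m v y) :
    ∃ (x : ℕ → V) (ℓ : ℕ), 0 < ℓ ∧ x 0 = x ℓ ∧ HallW m x ℓ := by
  classical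
  by_contra hno
  obtain ⟨v₀, hv₀⟩ := exists_min_image (univ : Finset V) (fun v => ∑ y, m v y) univ_nonempty
  have hmin := hv₀.2
  -- out-neighbours are reachable
  have hnb : ∀ v w, 0 < m v w → w ∈ R v := by
    intro v w h
    have hne : w ≠ v := by
      intro h'
      rw [h', hm] at h
      exact lt_irrefl _ h
    refine hR v w hne ⟨1, fun i => if i = 0 then v else w, by simp, by simp, fun τ => ?_⟩
    by_cases hτ : τ = 0
    · subst hτ
      refine (cw_eq_zero ?_).le
      intro i hi
      have : i = 0 := by omega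
      subst this
      simp only [if_pos, Nat.zero_add, one_ne_zero, if_false]
      omega
    · exact cw_le_len.trans (by omega)
  have hnbc : ∀ v, (univ.filter fun y => 0 < m v y).card ≤ (R v).card := by
    intro v
    refine card_le_card ?_
    intro y hy
    exact hnb v y (mem_filter.1 hy).2
  obtain ⟨X, hX⟩ : ∃ X, X = R v₀ := ⟨_, rfl⟩
  have hXpos : 0 < X.card := by
    rw [hX]
    have h1 : ∃ y ∈ (univ : Finset V), m v₀ y ≠ 0 := by
      refine exists_ne_zero_of_sum_ne_zero ?_
      have := hs v₀
      omega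
    obtain ⟨y, _, hy⟩ := h1
    exact card_pos.2 ⟨y, hnb v₀ y (Nat.pos_of_ne_zero hy)⟩
  -- heavy out-neighbours stay in `X`
  have hheavy : ∀ (u : ℕ → ℕ) (v : V), (∀ l, u l ≤ 2 * 2 ^ l) → HW m (pre u) v₀ v →
      ∀ y, 4 ≤ m v y → y ∈ X := by
    intro u v hu hv y hy
    have hpre : ∀ j, pre u j + (if 0 ≤ j then 1 else 0) ≤ 4 * 2 ^ j := by
      intro j
      have := pre_le u 2 hu j
      rw [if_pos (Nat.zero_le j)]
      omega
    by_cases hyv : y = v₀
    · exfalso
      subst hyv
      have hvy : y ≠ v := by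
        intro h
        rw [← h, hm] at hy
        omega
      exact hno (hv.closed (HW.edge 0 (by simpa using hy)) hvy hpre)
    · rw [hX]
      exact hR v₀ y hyv ((hv.trans (HW.edge 0 (by simpa using hy))).hall hpre)
  have hbig : ∀ (u : ℕ → ℕ) (v : V), (∀ l, u l ≤ 2 * 2 ^ l) → HW m (pre u) v₀ v →
      13 * X.card ≤ 5 * gam J (cnt X (m v)) := by
    intro u v hu hv
    have h1 := mass_le univ (m v) J fun y _ => hJ v y
    have h2 := gam_sdiff (subset_univ X) (m v) J
    have h3 : gam J (cnt (univ \ X) (m v)) = 0 := by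
      rw [gam_cnt]
      refine sum_eq_zero fun y hy => sum_eq_zero fun j _ => ?_
      rw [if_neg]
      intro h4
      have : 0 < 2 ^ j := by positivity
      exact (mem_sdiff.1 hy).2 (hheavy u v hu hv y (by omega))
    have h4 := hnbc v
    have h5 := hs v
    have h6 := hs v₀
    have h7 := hmin v (mem_univ v)
    rw [← hX] at h6
    omega
  have main : ∀ (n : ℕ) (Y : Finset V) (u : ℕ → ℕ), (X \ Y).card = n → Y ⊆ X →
      (∀ i, J ≤ i → u i = 0) → (∀ y ∈ insert v₀ Y, HW m (pre u) v₀ y) →
      pot J u * (13 * (X.card : ℝ) - 11 * Y.card) ≤ 13 * X.card → False := by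
    intro n
    induction n using Nat.strong_induction_on with
    | _ n ih =>
      intro Y u hn hYX hu hW hpot
      have hYc : (Y.card : ℝ) ≤ X.card := by exact_mod_cast card_le_card hYX
      have hXr : (0:ℝ) < X.card := by exact_mod_cast hXpos
      have hp : pot J u ≤ 13 / 2 := by
        have e1 : pot J u * (2 * X.card) ≤ 13 * X.card :=
          le_trans (mul_le_mul_of_nonneg_left (by linarith) (pot_pos _ _).le) hpot
        by_contra hcon
        push Not at hcon
        nlinarith
      have hus : ∀ l, u l ≤ 2 * 2 ^ l := by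
        intro l
        by_cases hl : l < J
        · exact usage_le J u (13 / 2) 2 hp (by norm_num) l hl
        · rw [hu l (by omega)]; exact Nat.zero_le _
      have hex : ∃ v ∈ insert v₀ Y, 13 * X.card ≤ 5 * gam J (cnt (X \ Y) (m v)) + 11 * Y.card := by
        rcases Y.eq_empty_or_nonempty with h0 | hne
        · refine ⟨v₀, mem_insert_self _ _, ?_⟩
          have := hbig u v₀ hus (hW v₀ (mem_insert_self _ _))
          rw [h0, sdiff_empty]
          omega
        · by_contra hcon
          push Not at hcon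
          refine hno (part_one m J hm Y hne ?_)
          intro v hv
          have h1 := hcon v (mem_insert_of_mem hv)
          have h2 := hbig u v hus (hW v (mem_insert_of_mem hv))
          have h3 := gam_sdiff hYX (m v) J
          omega
      obtain ⟨v, hv, hg⟩ := hex
      have hg' : 13 * (X.card : ℝ) ≤ 5 * (gam J (cnt (X \ Y) (m v)) : ℝ) + 11 * Y.card := by
        exact_mod_cast hg
      have hr : (0:ℝ) < (13 * (X.card : ℝ) - 11 * Y.card) / 11 := by
        have : (0:ℝ) < 13 * (X.card : ℝ) - 11 * Y.card := by linarith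
        positivity
      obtain ⟨T, i, hi, hTne, hTS, hW', hu', hpot'⟩ := one_step m J (X \ Y) (insert v₀ Y) v₀ v u
        hu (hW v hv) hW ((13 * (X.card : ℝ) - 11 * Y.card) / 11) hr (by linarith)
      have hdisj : Disjoint Y T := disjoint_of_subset_right hTS disjoint_sdiff
      have hcard : (Y ∪ T).card = Y.card + T.card := card_union_of_disjoint hdisj
      have hsub : Y ∪ T ⊆ X := union_subset hYX (hTS.trans sdiff_subset)
      refine ih (X \ (Y ∪ T)).card ?_ (Y ∪ T) (Function.update u i (u i + 1)) rfl hsub hu'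
        ?_ ?_
      · have e1 := card_sdiff_add_card_eq_card hYX
        have e2 := card_sdiff_add_card_eq_card hsub
        have e3 := hTne.card_pos
        omega
      · intro y hy
        refine hW' y ?_
        rw [insert_union]
        exact hy
      · rw [hcard]
        push_cast
        obtain ⟨q, hq⟩ : ∃ q : ℝ, q = 13 * (X.card : ℝ) - 11 * Y.card := ⟨_, rfl⟩
        rw [← hq] at hr hpot' hpot
        have hq0 : 0 < q := by linarith
        have e1 : (0:ℝ) ≤ T.card := Nat.cast_nonneg _
        have e2 : (0:ℝ) ≤ q - 11 * T.card := by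
          have : (Y.card : ℝ) + T.card ≤ X.card := by
            have := card_le_card hsub
            rw [hcard] at this
            exact_mod_cast this
          rw [hq]
          linarith
        have e4 : 13 * (X.card : ℝ) - 11 * (Y.card + T.card) = q - 11 * T.card := by
          rw [hq]; ring
        rw [e4]
        calc pot J (Function.update u i (u i + 1)) * (q - 11 * T.card)
            ≤ pot J u * (1 + (T.card : ℝ) / (q / 11)) * (q - 11 * T.card) :=
              mul_le_mul_of_nonneg_right hpot' e2
          _ = pot J u * ((1 + (T.card : ℝ) / (q / 11)) * (q - 11 * T.card)) := by ring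
          _ ≤ pot J u * q := by
              refine mul_le_mul_of_nonneg_left ?_ (pot_pos _ _).le
              have e3 : (1 + (T.card : ℝ) / (q / 11)) * (q - 11 * T.card)
                  = q - (11 * (T.card : ℝ)) ^ 2 / q := by
                field_simp
                ring
              rw [e3]
              have : 0 ≤ (11 * (T.card : ℝ)) ^ 2 / q := by positivity
              linarith
          _ ≤ 13 * X.card := hpot
  refine main (X \ ∅).card ∅ (fun _ => 0) rfl (empty_subset _) (fun _ _ => rfl) ?_ ?_
  · intro y hy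
    rw [insert_empty_eq, mem_singleton] at hy
    rw [hy]
    exact HW.refl _ _ _
  · rw [pot_zero]
    simp

end Pool.Agent.H16.Rb
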