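import Mathlib

set_option autoImplicit false

namespace Pool.Agent.H16.Rb

open Finset

/-- pointwise upper estimate for the square of the positive part -/
theorem pos_sq_le (y z : ℝ) :
    (max 0 (y + z)) ^ 2 ≤ (max 0 y) ^ 2 + 2 * (max 0 y) * z + z ^ 2 := by
  rcases le_total 0 y with hy | hy
  · rw [max_eq_right hy]
    rcases le_total 0 (y + z) with h | h
    · rw [max_eq_right h]; nlinarith
    · rw [max_eq_left h]; nlinarith [sq_nonneg (y + z)]
  · rw [max_eq_left hy]
    rcases le_total 0 (y + z) with h | h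
    · rw [max_eq_right h]
      have : y + z ≤ z := by linarith
      nlinarith
    · rw [max_eq_left h]; nlinarith [sq_nonneg z]

variable {V : Type*} [Fintype V]

/-- the quadratic form of a skew-symmetric matrix vanishes -/
theorem quad_zero (A : V → V → ℝ) (hA : ∀ x y, A x y = - A y x) (f : V → ℝ) :
    ∑ x, f x * (∑ v, A x v * f v) = 0 := by
  have h1 : ∑ x, f x * (∑ v, A x v * f v) = ∑ x, ∑ v, f x * (A x v * f v) := by
    refine sum_congr rfl fun x _ => ?_
    rw [mul_sum]
  have h2 : ∑ x, ∑ v, f x * (A x v * f v) = - ∑ x, ∑ v, f x * (A x v * f v) := by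
    conv_lhs => rw [sum_comm]
    rw [← sum_neg_distrib]
    refine sum_congr rfl fun x _ => ?_
    rw [← sum_neg_distrib]
    refine sum_congr rfl fun v _ => ?_
    rw [hA v x]; ring
  rw [h1]; linarith

/-- A skew-symmetric real matrix has a probability vector `l` with `A l ≥ 0`. -/
theorem exists_strategy [Nonempty V] (A : V → V → ℝ) (hA : ∀ x y, A x y = - A y x) :
    ∃ l : V → ℝ, (∀ v, 0 ≤ l v) ∧ (∑ v, l v = 1) ∧ ∀ x, 0 ≤ ∑ v, A x v * l v := by
  classical
  -- the quadratic form vanishes
  have hq : ∀ f : V → ℝ, ∑ x, f x * (∑ v, A x v * f v) = 0 := by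
    intro f
    have h1 : ∑ x, f x * (∑ v, A x v * f v) = ∑ x, ∑ v, f x * (A x v * f v) := by
      refine sum_congr rfl fun x _ => ?_
      rw [mul_sum]
    have h2 : ∑ x, ∑ v, f x * (A x v * f v) = - ∑ x, ∑ v, f x * (A x v * f v) := by
      conv_lhs => rw [sum_comm]
      rw [← sum_neg_distrib]
      refine sum_congr rfl fun x _ => ?_
      rw [← sum_neg_distrib]
      refine sum_congr rfl fun v _ => ?_
      rw [hA v x]; ring
    rw [h1]; linarith
  let F : (V → ℝ) → ℝ := fun l => ∑ x, (max 0 (-(∑ v, A x v * l v))) ^ 2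
  have hFc : Continuous F := by
    refine continuous_finsetSum _ fun x _ => ?_
    refine Continuous.pow ?_ 2
    refine continuous_const.max ?_
    refine Continuous.neg ?_
    exact continuous_finsetSum _ fun v _ => continuous_const.mul (continuous_apply v)
  obtain ⟨l, hl, hmin⟩ := (isCompact_stdSimplex ℝ V).exists_isMinOn
    (⟨_, single_mem_stdSimplex ℝ (Classical.arbitrary V)⟩ : (stdSimplex ℝ V).Nonempty)
    hFc.continuousOn
  refine ⟨l, hl.1, hl.2, ?_⟩
  -- set up
  set b : V → ℝ := fun x => ∑ v, A x v * l v with hb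
  set φ : V → ℝ := fun x => max 0 (-(b x)) with hφ
  have hφ0 : ∀ x, 0 ≤ φ x := fun x => le_max_left _ _
  have hφb : ∀ x, φ x * b x = - (φ x) ^ 2 := by
    intro x
    simp only [hφ]
    rcases le_total 0 (-(b x)) with h | h
    · rw [max_eq_right h]; ring
    · rw [max_eq_left h]; ring
  set Φ : ℝ := ∑ x, φ x with hΦ
  have hΦ0 : 0 ≤ Φ := sum_nonneg fun x _ => hφ0 x
  rcases eq_or_lt_of_le hΦ0 with h0 | hpos
  · -- all φ vanish
    intro x
    have : φ x = 0 := (sum_eq_zero_iff_of_nonneg (fun x _ => hφ0 x)).1 h0.symm x (mem_univ x)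
    have h1 : -(b x) ≤ φ x := le_max_right _ _
    have : 0 ≤ b x := by linarith
    simpa [hb] using this
  · exfalso
    let μ : V → ℝ := fun x => φ x / Φ
    have hμ : μ ∈ stdSimplex ℝ V := by
      refine ⟨fun x => div_nonneg (hφ0 x) hΦ0, ?_⟩
      change ∑ x, φ x / Φ = 1
      rw [← sum_div]; exact div_self hpos.ne'
    set c : V → ℝ := fun x => ∑ v, A x v * μ v with hc
    have hφc : ∑ x, φ x * c x = 0 := by
      have h1 : ∀ x, φ x * c x = Φ * (μ x * (∑ v, A x v * μ v)) := by
        intro x
        have : φ x = Φ * μ x := by simp only [μ]; field_simp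
        rw [this, hc]; ring
      rw [sum_congr rfl (fun x _ => h1 x), ← mul_sum, hq μ, mul_zero]
    set F0 : ℝ := ∑ x, (φ x) ^ 2 with hF0
    have hF0l : F l = F0 := rfl
    have hF0pos : 0 < F0 := by
      have hne : ∃ x, φ x ≠ 0 := by
        by_contra hcon
        push Not at hcon
        have : Φ = 0 := by rw [hΦ]; exact sum_eq_zero fun x _ => hcon x
        linarith
      obtain ⟨x, hx⟩ := hne
      have : 0 < (φ x) ^ 2 := by positivity
      exact lt_of_lt_of_le this (single_le_sum (f := fun x => (φ x) ^ 2)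
        (fun x _ => sq_nonneg _) (mem_univ x))
    set C : ℝ := ∑ x, (b x - c x) ^ 2 with hC
    have hC0 : 0 ≤ C := sum_nonneg fun x _ => sq_nonneg _
    -- main estimate
    have key : ∀ t : ℝ, 0 ≤ t → t ≤ 1 → 0 ≤ t * (-2 * F0 + t * C) := by
      intro t ht0 ht1
      have hmem : (fun x => (1 - t) * l x + t * μ x) ∈ stdSimplex ℝ V := by
        have := (convex_stdSimplex ℝ V) hl hμ (by linarith : 0 ≤ 1 - t) ht0 (by ring)
        simpa [Pi.add_apply, Pi.smul_apply, smul_eq_mul, Pi.add_def] using this
      have h1 := hmin hmem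
      have h1' : F l ≤ F (fun x => (1 - t) * l x + t * μ x) := h1
      have hlin : ∀ x, -(∑ v, A x v * ((1 - t) * l v + t * μ v)) = -(b x) + t * (b x - c x) := by
        intro x
        have : ∑ v, A x v * ((1 - t) * l v + t * μ v) = (1 - t) * b x + t * c x := by
          rw [hb, hc]; simp only
          rw [mul_sum, mul_sum, ← sum_add_distrib]
          refine sum_congr rfl fun v _ => ?_
          ring
        rw [this]; ring
      have h2 : F (fun x => (1 - t) * l x + t * μ x)
          ≤ ∑ x, ((φ x) ^ 2 + 2 * (φ x) * (t * (b x - c x)) + (t * (b x - c x)) ^ 2) := by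
        refine sum_le_sum fun x _ => ?_
        simp only
        rw [hlin x]
        exact pos_sq_le _ _
      have h3 : ∑ x, ((φ x) ^ 2 + 2 * (φ x) * (t * (b x - c x)) + (t * (b x - c x)) ^ 2)
          = F0 + t * (-2 * F0 + t * C) := by
        have e1 : ∀ x, (φ x) ^ 2 + 2 * (φ x) * (t * (b x - c x)) + (t * (b x - c x)) ^ 2
            = (φ x) ^ 2 + (2 * t) * (-(φ x) ^ 2) - (2 * t) * (φ x * c x)
              + t ^ 2 * (b x - c x) ^ 2 := by
          intro x
          rw [← hφb x]; ring
        rw [sum_congr rfl (fun x _ => e1 x), sum_add_distrib, sum_sub_distrib, sum_add_distrib,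
          ← mul_sum, ← mul_sum, ← mul_sum, hφc, sum_neg_distrib]
        ring
      rw [h3] at h2
      rw [hF0l] at h1'
      linarith
    have hk := key (min 1 (F0 / (C + 1))) (le_min zero_le_one (by positivity)) (min_le_left _ _)
    set t := min 1 (F0 / (C + 1)) with ht
    have htpos : 0 < t := lt_min one_pos (by positivity)
    have h4 : 0 ≤ -2 * F0 + t * C := by
      by_contra hcon
      push Not at hcon
      have := mul_neg_of_pos_of_neg htpos hcon
      linarith
    have h5 : t * C ≤ F0 := by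
      have h6 : t ≤ F0 / (C + 1) := min_le_right _ _
      calc t * C ≤ F0 / (C + 1) * C := mul_le_mul_of_nonneg_right h6 hC0
        _ = F0 * (C / (C + 1)) := by ring
        _ ≤ F0 * 1 := by
            refine mul_le_mul_of_nonneg_left ?_ hF0pos.le
            rw [div_le_one (by positivity)]; linarith
        _ = F0 := mul_one _
    linarith

/-- complementary slackness -/
theorem slack (A : V → V → ℝ) (hA : ∀ x y, A x y = - A y x) (l : V → ℝ) (hl : ∀ v, 0 ≤ l v)
    (hAl : ∀ x, 0 ≤ ∑ v, A x v * l v) (x : V) (hx : 0 < l x) : ∑ v, A x v * l v = 0 := by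
  classical
  have hq : ∑ x, l x * (∑ v, A x v * l v) = 0 := by
    have h1 : ∑ x, l x * (∑ v, A x v * l v) = ∑ x, ∑ v, l x * (A x v * l v) := by
      refine sum_congr rfl fun x _ => ?_
      rw [mul_sum]
    have h2 : ∑ x, ∑ v, l x * (A x v * l v) = - ∑ x, ∑ v, l x * (A x v * l v) := by
      conv_lhs => rw [sum_comm]
      rw [← sum_neg_distrib]
      refine sum_congr rfl fun x _ => ?_
      rw [← sum_neg_distrib]
      refine sum_congr rfl fun v _ => ?_
      rw [hA v x]; ring
    rw [h1]; linarith
  have h3 := (sum_eq_zero_iff_of_nonneg (fun x _ => mul_nonneg (hl x) (hAl x))).1 hq x (mem_univ x)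
  rcases mul_eq_zero.1 h3 with h | h
  · linarith
  · exact h

end Pool.Agent.H16.Rb
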